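import Pool.Agent.Lib.MP_5f6665_al.Defs
import Pool.Agent.Lib.MP_5f6665_al.Final

/-!
# All elements `u_n` lie in the verbal subsuperalgebra generated by `u_4`

Question Q1 asks whether every central `u_n` lies in the verbal subsuperalgebra of `SAlt[A;X]`
generated by `u_4`. The theorem proves this for every `n ≥ 1`, central or not.

Outline of the proof. Write `D = [·,x]_s`, `τ = [·,x²]_s`, `{y,z} = (y,z,x)`. Twelve identities of
alternative superalgebras (files `Basic.lean` and `Ident.lean`, for arguments of any parity)
give normal forms of words in `D` and `τ` (`ττ = DτD`, `DDτD = DτDD`) and a formal linear system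
for the elements `h ∘ [y,z]` and `h ∘ {y,z}`; `u_n` is an explicit combination of the elements
`a_i ∘ {a_j, a}` (`Un.lean`). For `5 ≤ n ≤ 12` explicit certificates, checked by kernel
evaluation (`Check.lean`, `Cert.lean`), write `u_n` as a combination of values of the full
superlinearization of `u_4` in `a`; for `n ≥ 13` a recurrence of order 6 (`Rec.lean`), with the
even derivation `D²` of the Jordan superproduct, expresses the polarization of `u_n` through those of
`u_{n-2}, …, u_{n-12}`.
-/

namespace Pool.Agent.Results.MP_5f6665_al.UnInVerbal

open Pool.Agent.Lib.MP_5f6665_al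

/-- Let `F` be a field of characteristic zero, `A` a set of even and `X` a set of odd generators,
`a ∈ A`, `x ∈ X`. For every `n ≥ 1` the element
`u_n = ((a²)_{n-1}, a, x) - (a_{n-1}, a², x)` of the free alternative superalgebra `SAlt[A;X]`
belongs to the verbal subsuperalgebra of `SAlt[A;X]` generated by `u_4`. -/
theorem result (F : Type*) [Field F] [CharZero F] (A X : Type*) (a : A) (x : X) (n : ℕ)
    (_hn : 1 ≤ n) :
    un n (SAlt.even F X a) (SAlt.odd F A x) ∈ verbal F (SAlt.homog F A X) (upoly F 4) :=
  un_mem a x n _hn

end Pool.Agent.Results.MP_5f6665_al.UnInVerbal
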